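import Pool.Agent.H782.Kom.Ten3

/-!
# The Komlós conjecture for families of k-dimensional arrays with independent symmetries

Every finite family of real `n₁ × ... × n_k` arrays of Euclidean norm at most one (any number of
arrays, any side lengths) that is invariant under all permutations of the indices in each of the
`k` directions separately (for `k = 2`: matrices under independent permutations of the rows and of
the columns, for instance weighted bipartite graphs) has a signing of value at most `10.7 ^ k`.
Only the invariance under the swaps of the halves of dyadic blocks in each direction is needed (for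
side lengths `2 ^ a` they generate a Sylow 2-subgroup of the product of the symmetric groups).

Proof. By induction on `k`, for families closed under negation, which are to be signed oddly. Sort
the arrays by the first block swap `v` of the first direction that moves them. The difference of
the slices at the first leaf of `v` and at its image is an array in the other directions, of norm
`O(1 / √|v|)`. The map to it is equivariant and odd, also under the swap of `v`, but not injective:
`Lift.lean` shows how an odd signing of the images gives an odd signing of the arrays that is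
antisymmetric under the swap. Arrays fixed by all swaps of the first direction are constant on the
maximal dyadic blocks, whose number is not bounded, so one signs simultaneously a bounded (in `ℓ¹`)
number of arrays; the base of the induction is the Beck–Fiala theorem for real matrices.
-/

set_option autoImplicit false

namespace Pool.Agent.Results.MP_c81d26_co.InvariantArrays

open Finset

/-- index tuples of an array with the given side lengths -/
def Idx : List ℕ → Type
  | [] => Unit
  | n :: ns => Fin n × Idx ns

instance instIdx : (ns : List ℕ) → Fintype (Idx ns)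
  | [] => inferInstanceAs (Fintype Unit)
  | n :: ns =>
    have := instIdx ns
    inferInstanceAs (Fintype (Fin n × Idx ns))

/-- `g` swaps the two halves of the block `{i 2^(h+1), ..., (i+1) 2^(h+1) - 1}`, which is contained
in `{0, ..., n-1}`, and fixes all other elements: on the block it flips the binary digit at
`2^h`. -/
def IsBlockSwap {n : ℕ} (g : Equiv.Perm (Fin n)) : Prop :=
  ∃ h i : ℕ, (i + 1) * 2 ^ (h + 1) ≤ n ∧
    ∀ a : Fin n, (g a : ℕ) = if (a : ℕ) / 2 ^ (h + 1) = i then (a : ℕ) ^^^ 2 ^ h else (a : ℕ)

/-- the maps of the index tuples that apply a block swap to one of the coordinates -/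
def Swaps : (ns : List ℕ) → Set (Idx ns → Idx ns)
  | [] => ∅
  | n :: ns => {h | (∃ g : Equiv.Perm (Fin n), IsBlockSwap g ∧
      h = fun d : Fin n × Idx ns => ((g d.1, d.2) : Fin n × Idx ns)) ∨
      ∃ h' ∈ Swaps ns, h = fun d : Fin n × Idx ns => ((d.1, h' d.2) : Fin n × Idx ns)}

/-- the family `v` of arrays is invariant (as a multiset) under each block swap in each
direction -/
def Invariant {ns : List ℕ} {N : Type} (v : N → Idx ns → ℝ) : Prop :=
  ∀ h ∈ Swaps ns, ∃ τ : Equiv.Perm N, ∀ j d, v (τ j) (h d) = v j d

theorem odd (ns : List ℕ) : H782.Kom.OddP (Idx ns) (Swaps ns) (10.7 ^ ns.length * 2) ∧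
    ∀ h ∈ Swaps ns, ∀ f, h (h f) = f := by
  induction ns with
  | nil =>
    refine ⟨?_, ?_⟩
    · have e : (10.7 : ℝ) ^ ([] : List ℕ).length * 2 = 2 := by simp
      rw [e]
      exact H782.Kom.oddP_unit (∅ : Set (Unit → Unit))
    · intro h hh
      exact absurd hh (Set.notMem_empty h)
  | cons n ns ih =>
    refine ⟨?_, ?_⟩
    · have := H782.Kom.oddP_step ih.1 (by positivity) ih.2 n
      rw [← mul_assoc, ← pow_succ'] at this
      exact this
    · exact H782.Kom.HS_inv ih.2 n

theorem result : ∀ (ns : List ℕ) (N : Type) [Fintype N] (v : N → Idx ns → ℝ), Invariant v →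
    (∀ j, ∑ d, v j d ^ 2 ≤ 1) →
    ∃ ε : N → ℝ, (∀ j, ε j = 1 ∨ ε j = -1) ∧ ∀ d, |∑ j, ε j * v j d| ≤ 10.7 ^ ns.length := by
  intro ns N _ v hv hn
  obtain ⟨ε, h1, h2⟩ := H782.Kom.plain_of_odd (odd ns).1 (odd ns).2 N v hv hn
  refine ⟨ε, h1, fun d => (h2 d).trans (le_of_eq ?_)⟩
  ring

end Pool.Agent.Results.MP_c81d26_co.InvariantArrays
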