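import Pool.Agent.H782.Kom.Gen2

/-!
# The Komlós conjecture for permutation-invariant families of matrices

Every finite family of real `n × n` matrices of Frobenius norm at most one that is invariant under
all simultaneous permutations of the rows and columns (for instance a family of weighted directed
graphs on `n` vertices that is closed under isomorphism) has a signing of value at most `430`.
Only the invariance under the swaps of the two halves of the dyadic blocks of indices (for
`n = 2 ^ k` they generate a Sylow 2-subgroup of the symmetric group) is needed. For families of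
vectors of `ℝ ^ n` that are invariant under the permutations of the coordinates the bound is
`10.25`.

Proof. Cancel equal matrices, so that the family is a set. Order the blocks by size. For a matrix
`x` let `v` be the first block whose swap moves `x`, and `w` the first such block that does not
contain `v`. The matrices with given `(v, w)` form a set invariant under the two swaps, which have
no fixed points on it and commute, and they are signed antisymmetrically under both. So the signed
sum vanishes at all entries that do not involve both `v` and `w`; it is constant on the products of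
their halves up to sign, so that only two entries have to be balanced, and there all the matrices
have entries at most `1 / √(|v| |w| / 4)`. If there is no `w`, then all blocks that do not contain
`v` fix `x`, and the entries in the rows and columns of `v` take few values, of total size
`O(1 / √|v|)`. Each entry is involved in at most one block `v` and one block `w` of each size (and
in the same way with the roles exchanged), and the errors form a convergent double series. The
balancing step is the Beck–Fiala theorem for real matrices.
-/

set_option autoImplicit false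

namespace Pool.Agent.Results.MP_c81d26_co.InvariantMatrices

open Finset

/-- `g` swaps the two halves of the block `{i 2^(h+1), ..., (i+1) 2^(h+1) - 1}`, which is contained
in `{0, ..., n-1}`, and fixes all other elements: on the block it flips the binary digit at
`2^h`. -/
def IsBlockSwap {n : ℕ} (g : Equiv.Perm (Fin n)) : Prop :=
  ∃ h i : ℕ, (i + 1) * 2 ^ (h + 1) ≤ n ∧
    ∀ a : Fin n, (g a : ℕ) = if (a : ℕ) / 2 ^ (h + 1) = i then (a : ℕ) ^^^ 2 ^ h else (a : ℕ)

/-- The family `v` of matrices is invariant (as a multiset) under each block swap, applied to the
rows and the columns simultaneously. -/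
def InvariantMat {n : ℕ} {N : Type} (v : N → Fin n → Fin n → ℝ) : Prop :=
  ∀ g : Equiv.Perm (Fin n), IsBlockSwap g →
    ∃ τ : Equiv.Perm N, ∀ j a b, v (τ j) (g a) (g b) = v j a b

/-- The family `v` of vectors is invariant (as a multiset) under each block swap of the
coordinates. -/
def InvariantVec {n : ℕ} {N : Type} (v : N → Fin n → ℝ) : Prop :=
  ∀ g : Equiv.Perm (Fin n), IsBlockSwap g → ∃ τ : Equiv.Perm N, ∀ j a, v (τ j) (g a) = v j a

theorem result :
    (∀ (n : ℕ) (N : Type) [Fintype N] (v : N → Fin n → Fin n → ℝ), InvariantMat v →
      (∀ j, ∑ a, ∑ b, v j a b ^ 2 ≤ 1) →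
      ∃ ε : N → ℝ, (∀ j, ε j = 1 ∨ ε j = -1) ∧ ∀ a b, |∑ j, ε j * v j a b| ≤ 430) ∧
    (∀ (n : ℕ) (N : Type) [Fintype N] (v : N → Fin n → ℝ), InvariantVec v →
      (∀ j, ∑ a, v j a ^ 2 ≤ 1) →
      ∃ ε : N → ℝ, (∀ j, ε j = 1 ∨ ε j = -1) ∧ ∀ a, |∑ j, ε j * v j a| ≤ 10.25) := by
  classical
  refine ⟨?_, fun n N _ v hv hn => H782.Kom.re_vec n N v hv hn⟩
  intro n N _ v hv hn
  obtain ⟨X, h1, h2, h3⟩ := H782.Kom.reduce n N v hv
  obtain ⟨ε, h4, h5⟩ := H782.Kom.finset_signing n X h2 (by
    intro x hx
    obtain ⟨j, hj⟩ := h1 x hx
    unfold H782.Kom.Norm
    rw [Finset.sum_range]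
    have e : ∀ a : Fin n, ∑ q ∈ range n, x (↑a, q) ^ 2 = ∑ b, v j a b ^ 2 := by
      intro a
      rw [Finset.sum_range]
      exact Finset.sum_congr rfl fun b _ => by rw [hj]
    rw [Finset.sum_congr rfl fun a _ => e a]
    exact hn j)
  obtain ⟨δ, h6, h7⟩ := h3 ε h4
  refine ⟨δ, h6, fun a b => ?_⟩
  rw [h7]
  exact h5 (a, b) ⟨a.2, b.2⟩

end Pool.Agent.Results.MP_c81d26_co.InvariantMatrices
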